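import Pool.Agent.Helper15.TS.St

/-! MODULE DIR of project TS (MP_434a84_lc): thin direction lemma. -/

set_option autoImplicit false

namespace Pool.Agent.Helper47.TS

open Pool.Agent.Helper22.FL Pool.Agent.Helper22.CS Pool.Agent.Helper15.TS

/-- a subspace containing all vectors supported in `I` has dimension at least `|I|` -/
theorem DIR_dim {n : ℕ} (I : Finset (Fin n)) (V : Submodule ℚ (Fin n → ℚ))
    (h : ∀ x : Fin n → ℚ, (∀ i, i ∉ I → x i = 0) → x ∈ V) : I.card ≤ Module.finrank ℚ V := by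
  classical
  have hmem : ∀ i : I, (Pi.single (i : Fin n) (1 : ℚ) : Fin n → ℚ) ∈ V := by
    intro i
    apply h
    intro j hj
    have hij : j ≠ (i : Fin n) := fun h' => hj (h' ▸ i.2)
    exact Pi.single_eq_of_ne hij _
  let f : I → V := fun i => ⟨Pi.single (i : Fin n) (1 : ℚ), hmem i⟩
  have hf : LinearIndependent ℚ f := by
    apply LinearIndependent.of_comp V.subtype
    have h1 := (Pi.basisFun ℚ (Fin n)).linearIndependent
    have h2 := h1.comp (fun i : I => (i : Fin n)) Subtype.val_injective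
    have h3 : (V.subtype : V → Fin n → ℚ) ∘ f =
        (Pi.basisFun ℚ (Fin n) : Fin n → Fin n → ℚ) ∘ (fun i : I => (i : Fin n)) := by
      funext i
      simp [f]
    rw [h3]
    exact h2
  have h4 := hf.fintype_card_le_finrank
  rwa [Fintype.card_coe] at h4

theorem stdir (hLINE : StLINE) (hGENA : StGENA) (hFUL : StFUL) : StDIR := by
  classical
  intro n S R hR hS I P α hI hyp
  obtain ⟨hP1, hP2, -, hP4⟩ := hyp
  obtain ⟨t, ht1, htV⟩ := hGENA n P (R.image fun r => spQ (restr r.2 I))
  refine ⟨t, ht1, ?_⟩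
  intro b M w hM hw hall
  have hvap : ∀ i, (∑ p ∈ P, t p • p) i = ∑ p ∈ P, t p * p i := by
    intro i
    rw [Finset.sum_apply]
    rfl
  have hv1 : ∀ i ∈ I, 1 ≤ (∑ p ∈ P, t p • p) i := by
    intro i hi
    rw [← hP2] at hi
    obtain ⟨p, hp, hip⟩ := Finset.mem_biUnion.1 hi
    rw [mem_letters] at hip
    rw [hvap]
    have h1 : t p * p i ≤ ∑ p ∈ P, t p * p i :=
      Finset.single_le_sum (f := fun p => t p * p i) (fun _ _ => Nat.zero_le _) hp
    have h2 : 1 ≤ t p * p i := Nat.mul_pos (ht1 p) (Nat.pos_of_ne_zero hip)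
    exact h2.trans h1
  have hvI : letters (∑ p ∈ P, t p • p) ⊆ I := by
    intro i hi
    rw [mem_letters] at hi
    by_contra hiI
    apply hi
    rw [hvap]
    refine Finset.sum_eq_zero fun p hp => ?_
    have h1 : p i = 0 := by
      by_contra h0
      exact hiI (hP1 p hp (mem_letters.2 h0))
    rw [h1, mul_zero]
  obtain ⟨r, hr, s, i, -, hvV, hwV⟩ := hLINE n S R hR I b _ M w hM hvI hw hall
  refine ⟨s, ?_⟩
  have hPV : ∀ p ∈ P, toQ p ∈ spQ (restr r.2 I) :=
    htV _ (Finset.mem_image_of_mem _ hr) hvV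
  have hle : spQ P ≤ spQ (restr r.2 I) := by
    apply Submodule.span_le.2
    rintro _ ⟨p, hp, rfl⟩
    exact hPV p hp
  have hful := (hFUL n S R hR hS r hr I _ hI hv1 hvV).2
  by_contra hne
  have hw0 : ∀ j, j ∉ I → toQ (w s) j = 0 := by
    intro j hj
    have : w s j = 0 := by
      by_contra h0
      exact hj (hw s (mem_letters.2 h0))
    simp [toQ, this]
  have hne' : ∑ j, (α j : ℚ) * toQ (w s) j ≠ 0 := by
    intro h
    apply hne
    have h1 : ((∑ j, α j * (w s j : ℤ) : ℤ) : ℚ) = 0 := by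
      push_cast
      exact h
    exact_mod_cast h1
  have hdim := DIR_dim I (spQ (restr r.2 I)) (by
    intro x hx
    set c : ℚ := (∑ j, (α j : ℚ) * x j) / ∑ j, (α j : ℚ) * toQ (w s) j with hc
    have h1 : x - c • toQ (w s) ∈ spQ P := by
      rw [hP4]
      · have h2 : ∑ j, (α j : ℚ) * (x - c • toQ (w s)) j =
            ∑ j, (α j : ℚ) * x j - c * ∑ j, (α j : ℚ) * toQ (w s) j := by
          rw [Finset.mul_sum, ← Finset.sum_sub_distrib]
          refine Finset.sum_congr rfl fun j _ => ?_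
          rw [Pi.sub_apply, Pi.smul_apply, smul_eq_mul]
          ring
        rw [h2, hc, div_mul_cancel₀ _ hne', sub_self]
      · intro j hj
        rw [Pi.sub_apply, Pi.smul_apply, hx j hj, hw0 j hj, smul_zero, sub_zero]
    have h3 := (spQ (restr r.2 I)).add_mem (hle h1)
      ((spQ (restr r.2 I)).smul_mem c hwV)
    rwa [sub_add_cancel] at h3)
  omega

end Pool.Agent.Helper47.TS
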