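import Pool.Agent.Helper12.TS.StB

/-!
# Project TS (MP_d63854_co), module BPR: case beta, links
-/

set_option autoImplicit false

namespace Pool.Agent.Helper47.TS

open Pool.Agent.Helper12.TS
open Pool.Agent.Helper51.AJ (IsMinor Planar Apex ExMinor Con Tch)
open Pool.Agent.Helper12.NK (rst Kc add)

private theorem con_mono {V : Type} {H H' : SimpleGraph V} {X : Set V} (h : Con H X)
    (hm : ∀ a ∈ X, ∀ b ∈ X, H.Adj a b → H'.Adj a b) : Con H' X :=
  SimpleGraph.Connected.mono (fun a b hab => hm a.1 a.2 b.1 b.2 hab) h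

/-- The model used in the case of one branch set meeting `S`. -/
private theorem oneModel {V ι : Type} [Finite V] [Finite ι] (hPTN : StPTN)
    (G D : SimpleGraph V) (S A : Set V) (Γ : SimpleGraph ι) (φ : ι → Set V) (ρ : V → V)
    (hAS : Disjoint A S) (hD : D ≤ cl S) (hM : Mdl G D A S Γ φ ρ)
    (i j : ι) (s₁ s₂ s₃ : V) (h1 : s₁ ∈ S) (h2 : s₂ ∈ S) (h12 : s₁ ≠ s₂)
    (h13 : s₁ ≠ s₃) (h23 : s₂ ≠ s₃)
    (hJ : ∀ k, k ≠ i → ¬ (φ k ∩ S).Nonempty)
    (htt : ∀ k l, ¬ (φ k ∩ S).Nonempty → Γ.Adj k l → Tch G (φ k) (φ l))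
    (hP1 : {z | ρ z = s₁} ⊆ φ i) (hP2 : {z | ρ z = s₂} ⊆ φ i)
    (hj : Tch G {z | ρ z = s₂} (φ j)) (hji : j ≠ i)
    (hk : ∀ k, k ≠ i → k ≠ j → ∀ x ∈ φ k, ∀ y ∈ φ i, G.Adj x y → ρ y = s₁) :
    ¬ Planar (rst G (A ∪ S \ {s₃}) ⊔ cl (S \ {s₃})) := by
  classical
  obtain ⟨-, -, -, -, -, p6, -⟩ := hPTN
  have hfix : ∀ s ∈ S, ρ s = s := fun s hs => hM.rtr.off s fun hA =>
    Set.disjoint_left.mp hAS hA hs
  have hsubA : ∀ k, k ≠ i → φ k ⊆ A := by
    intro k hki x hx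
    have hx' : x ∈ A ∪ S := by rw [← hM.cov]; exact Set.mem_iUnion_of_mem k hx
    rcases hx' with h | h
    · exact h
    · exact absurd ⟨x, hx, h⟩ (hJ k hki)
  -- the fibre of an element of `S`
  have hfibA : ∀ s ∈ S, ∀ z, ρ z = s → z ∈ A ∨ z = s := by
    intro s _ z hz
    by_cases hzA : z ∈ A
    · exact Or.inl hzA
    · exact Or.inr ((hM.rtr.off z hzA).symm.trans hz)
  set U : Set V := A ∪ S \ {s₃} with hU
  have hAU : ∀ x ∈ A, x ∈ U := fun x hx => Or.inl hx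
  have h1U : s₁ ∈ U := Or.inr ⟨h1, h13⟩
  have h2U : s₂ ∈ U := Or.inr ⟨h2, h23⟩
  have hF1 : ∀ z, ρ z = s₁ → z ∈ U := by
    intro z hz
    rcases hfibA s₁ h1 z hz with h | h
    · exact hAU z h
    · rw [h]; exact h1U
  have hF2 : ∀ z, ρ z = s₂ → z ∈ U := by
    intro z hz
    rcases hfibA s₂ h2 z hz with h | h
    · exact hAU z h
    · rw [h]; exact h2U
  set H : SimpleGraph V := rst G U ⊔ cl (S \ {s₃}) with hH
  have hGH : ∀ x ∈ U, ∀ y ∈ U, G.Adj x y → H.Adj x y := fun x hx y hy h =>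
    Or.inl ⟨h, hx, hy⟩
  have hadj12 : H.Adj s₁ s₂ := Or.inr ⟨h12, ⟨h1, h13⟩, ⟨h2, h23⟩⟩
  have c1 : Con H {z | ρ z = s₁} := by
    have := hM.rtr.fib s₁
    rw [hfix s₁ h1] at this
    exact con_mono this fun a ha b hb h => hGH a (hF1 a ha) b (hF1 b hb) h
  have c2 : Con H {z | ρ z = s₂} := by
    have := hM.rtr.fib s₂
    rw [hfix s₂ h2] at this
    exact con_mono this fun a ha b hb h => hGH a (hF2 a ha) b (hF2 b hb) h
  have c12 : Con H ({z | ρ z = s₁} ∪ {z | ρ z = s₂}) :=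
    Pool.Agent.Helper51.AJ.con_union c1 c2 ⟨s₁, hfix s₁ h1, s₂, hfix s₂ h2, hadj12⟩
  have hsub : {z | ρ z = s₁} ∪ {z | ρ z = s₂} ⊆ φ i := Set.union_subset hP1 hP2
  refine p6 ι V Γ H (fun k => if k = i then {z | ρ z = s₁} ∪ {z | ρ z = s₂} else φ k)
    ⟨?_, ?_, ?_⟩ hM.np
  · intro k
    by_cases hki : k = i
    · simp only [hki, if_true]
      exact c12
    · simp only [hki, if_false]
      refine con_mono (hM.md.1 k) fun a ha b hb h => ?_
      have haA := hsubA k hki ha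
      have hbA := hsubA k hki hb
      rcases h with h | h
      · exact hGH a (hAU a haA) b (hAU b hbA) h.1
      · exact absurd (hD h).2.1 (Set.disjoint_left.mp hAS haA)
  · intro k l hkl
    have hd : ∀ k, (if k = i then {z | ρ z = s₁} ∪ {z | ρ z = s₂} else φ k) ⊆ φ k := by
      intro k
      by_cases hki : k = i
      · simp only [hki, if_true]
        exact hsub
      · simp only [hki, if_false]
        exact subset_rfl
    exact (hM.md.2.1 k l hkl).mono (hd k) (hd l)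
  · -- touching
    have key : ∀ k, k ≠ i → Γ.Adj k i →
        Tch H (φ k) ({z | ρ z = s₁} ∪ {z | ρ z = s₂}) := by
      intro k hki hadj
      by_cases hkj : k = j
      · subst hkj
        obtain ⟨x, hx, y, hy, hxy⟩ := hj
        exact ⟨y, hy, x, Or.inr hx, hGH y (hAU y (hsubA k hki hy)) x (hF2 x hx) hxy.symm⟩
      · obtain ⟨x, hx, y, hy, hxy⟩ := htt k i (hJ k hki) hadj
        have hys : ρ y = s₁ := hk k hki hkj x hx y hy hxy
        exact ⟨x, hx, y, Or.inl hys, hGH x (hAU x (hsubA k hki hx)) y (hF1 y hys) hxy⟩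
    intro k l hadj
    by_cases hki : k = i
    · subst hki
      have hlk : l ≠ k := hadj.ne'
      simp only [if_true, hlk, if_false]
      exact Pool.Agent.Helper51.AJ.tch_symm (key l hlk hadj.symm)
    · by_cases hli : l = i
      · subst hli
        simp only [if_true, hki, if_false]
        exact key k hki hadj
      · simp only [hki, hli, if_false]
        obtain ⟨x, hx, y, hy, hxy⟩ := htt k l (hJ k hki) hadj
        exact ⟨x, hx, y, hy, hGH x (hAU x (hsubA k hki hx)) y (hAU y (hsubA l hli hy)) hxy⟩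

theorem hBPR : StPTN → StCMP → StMDQ → StBPR := by
  intro hPTN hCMP hMDQ V ι _ _ G D S A Γ φ ρ hS3 hAS hD hM hStg hT
  classical
  have hPTN' := hPTN
  obtain ⟨-, -, -, -, -, p6, -, -, p9, p10⟩ := hPTN
  have hSne : S.Nonempty := by
    rw [← Set.ncard_pos]
    omega
  obtain ⟨-, -, q3, q4, q5, q6, -⟩ := hMDQ V ι G D A S Γ φ ρ hAS hSne hD hM
  set J : Set ι := {i | ¬ (φ i ∩ S).Nonempty} with hJ
  set I : Set ι := {i | (φ i ∩ S).Nonempty} with hI
  have hIJ : ∀ i, i ∉ I → i ∈ J := fun i hi => hi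
  have hJI : ∀ i, i ∈ J → i ∉ I := fun i hi => hi
  have hcard : 5 ≤ Nat.card ι := p9 ι Γ hM.np
  have huniq : ∀ i j x, x ∈ φ i → x ∈ φ j → i = j := by
    intro i j x hi hj
    by_contra hne
    exact Set.disjoint_left.mp (hM.md.2.1 i j hne) hi hj
  have hfix : ∀ s ∈ S, ρ s = s := fun s hs => hM.rtr.off s fun hA =>
    Set.disjoint_left.mp hAS hA hs
  have hne : Nonempty ι := by
    by_contra h
    rw [not_nonempty_iff] at h
    rw [Nat.card_of_isEmpty] at hcard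
    omega
  have hex : ∀ x, x ∈ A ∪ S → ∃ i, x ∈ φ i := by
    intro x hx
    rw [← hM.cov] at hx
    exact Set.mem_iUnion.mp hx
  choose! f hf using hex
  have hIf : I = f '' S := by
    ext i
    constructor
    · rintro ⟨s, hs, hsS⟩
      exact ⟨s, hsS, huniq _ _ s (hf s (Or.inr hsS)) hs⟩
    · rintro ⟨s, hs, rfl⟩
      exact ⟨s, hf s (Or.inr hs), hs⟩
  have hfI : ∀ s ∈ S, f s ∈ I := fun s hs => by rw [hIf]; exact ⟨s, hs, rfl⟩
  have hI3 : I.ncard ≤ 3 := by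
    rw [hIf, ← hS3]
    exact Set.ncard_image_le (Set.toFinite S)
  have hI1 : 1 ≤ I.ncard := by
    obtain ⟨s, hs⟩ := hSne
    exact (Set.ncard_pos (Set.toFinite I)).mpr ⟨f s, hfI s hs⟩
  have hfib : ∀ s ∈ S, {z | ρ z = s} ⊆ φ (f s) := by
    intro s hs z hz
    have hz' : ρ z = s := hz
    by_cases hzA : z ∈ A
    · have h1 := hf z (Or.inl hzA)
      have h2 := hM.inv (f z) z h1
      rw [hz'] at h2
      rw [huniq (f s) (f z) s (hf s (Or.inr hs)) h2]
      exact h1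
    · have : z = s := (hM.rtr.off z hzA).symm.trans hz'
      rw [this]
      exact hf s (Or.inr hs)
  have touch : ∀ K ⊆ J, ∀ i ∈ I, Tch Γ {i} K →
      ∃ s ∈ S, s ∈ φ i ∧ Tch G {z | ρ z = s} (⋃ k ∈ K, φ k) := by
    rintro K hK i hi ⟨i', hi', k, hk, hadj⟩
    have hi'' : i' = i := hi'
    subst hi''
    obtain ⟨x, hx, y, hy, hxy⟩ := q6 k i' (hK hk) hadj.symm
    exact ⟨ρ y, hM.root i' hi y hy, hM.inv i' y hy, y, rfl, x, Set.mem_biUnion hk hx, hxy.symm⟩
  have sub : ∀ K ⊆ J, (⋃ k ∈ K, φ k) ⊆ Zz A ρ := by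
    intro K hK
    rw [q3]
    exact Set.biUnion_subset_biUnion_left hK
  have part1 : ∃ Z ⊆ Zz A ρ, Con G Z ∧ ∀ s ∈ S, Tch G {z | ρ z = s} Z := by
    by_cases h2 : I.ncard < 3
    · have hc : Con Γ (Set.univ \ I) := hM.kc.2 I h2
      have hu : (Set.univ \ I) = J := by
        ext i
        exact ⟨fun h => h.2, fun h => ⟨trivial, h⟩⟩
      rw [hu] at hc
      refine ⟨Zz A ρ, subset_rfl, ?_, hT⟩
      rw [q3]
      exact q5 J subset_rfl hc
    · have hI3' : I.ncard = 3 := by omega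
      obtain ⟨c1, -, -, c4, -⟩ := hCMP ι Γ I
      have hx : ∃ x, x ∉ I := by
        by_contra h
        push Not at h
        have : I = Set.univ := Set.eq_univ_of_forall h
        rw [this, Set.ncard_univ] at hI3'
        omega
      obtain ⟨x, hx⟩ := hx
      obtain ⟨K, hK, -⟩ := c1 x hx
      have hKJ : K ⊆ J := fun k hk => hIJ k fun h => Set.disjoint_left.mp hK.1 hk h
      refine ⟨⋃ k ∈ K, φ k, sub K hKJ, q5 K hKJ hK.2.1, fun s hs => ?_⟩
      obtain ⟨s', hs', hs'φ, ht⟩ := touch K hKJ (f s) (hfI s hs)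
        (c4 hM.kc hI3' K hK (f s) (hfI s hs))
      have hinj : Set.InjOn f S := by
        refine Set.injOn_of_ncard_image_eq ?_ (Set.toFinite S)
        rw [← hIf, hI3', hS3]
      have : s' = s := hinj hs' hs (huniq _ _ s' (hf s' (Or.inr hs')) hs'φ)
      rw [← this]
      exact ht
  refine ⟨part1, fun r => ?_⟩
  by_cases hr : ∃ j ∈ J, ∃ x ∈ φ j, ρ x = r
  · obtain ⟨j, hj, x0, hx0, hx0r⟩ := hr
    have hfr : {z | ρ z = r} = φ j := by rw [← hx0r]; exact q4 j hj x0 hx0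
    have sub2 : ∀ K ⊆ J, j ∉ K → (⋃ k ∈ K, φ k) ⊆ Zz A ρ \ {z | ρ z = r} := by
      intro K hK hjK z hz
      refine ⟨sub K hK hz, fun hzr => ?_⟩
      rw [hfr] at hzr
      obtain ⟨k, hk, hzk⟩ := Set.mem_iUnion₂.mp hz
      exact hjK (huniq j k z hzr hzk ▸ hk)
    have hex : (insert j I).ncard < Nat.card ι → ∃ K, Cmp Γ (insert j I) K := by
      intro hlt
      obtain ⟨c1, -⟩ := hCMP ι Γ (insert j I)
      have hx : ∃ x, x ∉ insert j I := by
        by_contra h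
        push Not at h
        have : insert j I = Set.univ := Set.eq_univ_of_forall h
        rw [this, Set.ncard_univ] at hlt
        omega
      obtain ⟨x, hx⟩ := hx
      obtain ⟨K, hK, -⟩ := c1 x hx
      exact ⟨K, hK⟩
    have hjI : (insert j I).ncard = I.ncard + 1 :=
      Set.ncard_insert_of_notMem (hJI j hj) (Set.toFinite I)
    -- two different elements of `I` touched by `K`
    have two : ∀ K, Disjoint K (insert j I) → Con Γ K → ∀ i ∈ I, ∀ i' ∈ I, i ≠ i' →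
        Tch Γ {i} K → Tch Γ {i'} K → ∃ a ∈ S, ∃ b ∈ S, a ≠ b ∧
        ∃ Z ⊆ Zz A ρ \ {z | ρ z = r}, Con G Z ∧ Tch G {z | ρ z = a} Z ∧
          Tch G {z | ρ z = b} Z := by
      intro K hKd hKc i hi i' hi' hii ht ht'
      have hKJ : K ⊆ J := fun k hk => hIJ k fun h =>
        Set.disjoint_left.mp hKd hk (Set.mem_insert_of_mem j h)
      have hjK : j ∉ K := fun h => Set.disjoint_left.mp hKd h (Set.mem_insert j I)
      obtain ⟨a, ha, haφ, hta⟩ := touch K hKJ i hi ht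
      obtain ⟨b, hb, hbφ, htb⟩ := touch K hKJ i' hi' ht'
      refine ⟨a, ha, b, hb, ?_, ⋃ k ∈ K, φ k, sub2 K hKJ hjK, q5 K hKJ hKc, hta, htb⟩
      rintro rfl
      exact hii (huniq i i' a haφ hbφ)
    obtain h3 | h2 | h1 : I.ncard = 3 ∨ I.ncard = 2 ∨ I.ncard = 1 := by omega
    · obtain ⟨K, hK⟩ := hex (by omega)
      obtain ⟨-, -, -, -, c5, -⟩ := hCMP ι Γ I
      obtain ⟨t, ht, -, htK⟩ := c5 hM.kc h3 j (hJI j hj) K hK j
      obtain ⟨t', ht', hne', htK'⟩ := c5 hM.kc h3 j (hJI j hj) K hK t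
      exact two K hK.1 hK.2.1 t ht t' ht' hne'.symm htK htK'
    · obtain ⟨K, hK⟩ := hex (by omega)
      obtain ⟨-, -, -, c4, -⟩ := hCMP ι Γ (insert j I)
      have c4' := c4 hM.kc (by omega) K hK
      obtain ⟨i, i', hii, hIeq⟩ := Set.ncard_eq_two.mp h2
      have hi : i ∈ I := by rw [hIeq]; simp
      have hi' : i' ∈ I := by rw [hIeq]; simp
      exact two K hK.1 hK.2.1 i hi i' hi' hii (c4' i (Set.mem_insert_of_mem j hi))
        (c4' i' (Set.mem_insert_of_mem j hi'))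
    · obtain ⟨i, hIeq⟩ := Set.ncard_eq_one.mp h1
      have hi : i ∈ I := by rw [hIeq]; simp
      have hIi : ∀ k, k ≠ i → k ∈ J := fun k hk => hIJ k fun h => hk (by rw [hIeq] at h; exact h)
      have hji : j ≠ i := fun h => hJI j hj (h ▸ hi)
      have hfi : ∀ s ∈ S, f s = i := fun s hs => by
        have := hfI s hs
        rw [hIeq] at this
        exact this
      have hc : Con Γ (Set.univ \ insert j I) := hM.kc.2 _ (by omega)
      set K : Set ι := Set.univ \ insert j I with hKdef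
      have hKJ : K ⊆ J := fun k hk => hIJ k fun h => hk.2 (Set.mem_insert_of_mem j h)
      have hjK : j ∉ K := fun h => h.2 (Set.mem_insert j I)
      have hmemK : ∀ k, k ≠ i → k ≠ j → k ∈ K := by
        intro k hki hkj
        refine ⟨trivial, fun h => ?_⟩
        rcases h with h | h
        · exact hkj h
        · rw [hIeq] at h
          exact hki h
      obtain ⟨k0, hk0, hadj0⟩ := p10 ι Γ hM.kc i {j} (by rw [Set.ncard_singleton]; omega)
      have hk0K : k0 ∈ K := hmemK k0 hadj0.ne' hk0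
      obtain ⟨s₁, hs₁, -, ht₁⟩ := touch K hKJ i hi ⟨i, rfl, k0, hk0K, hadj0⟩
      by_cases hb : ∃ b ∈ S, b ≠ s₁ ∧ Tch G {z | ρ z = b} (⋃ k ∈ K, φ k)
      · obtain ⟨b, hb, hbs, htb⟩ := hb
        exact ⟨s₁, hs₁, b, hb, hbs.symm, ⋃ k ∈ K, φ k, sub2 K hKJ hjK, q5 K hKJ hc, ht₁, htb⟩
      · exfalso
        push Not at hb
        obtain ⟨s₂, s₃, h23, h12, h13, hs₂, hs₃⟩ : ∃ s₂ s₃, s₂ ≠ s₃ ∧ s₁ ≠ s₂ ∧ s₁ ≠ s₃ ∧
            s₂ ∈ S ∧ s₃ ∈ S := by
          have hc2 : (S \ {s₁}).ncard = 2 := by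
            rw [Set.ncard_sdiff_singleton_of_mem hs₁, hS3]
          obtain ⟨x, y, hxy, he⟩ := Set.ncard_eq_two.mp hc2
          have hx : x ∈ S \ {s₁} := by rw [he]; simp
          have hy : y ∈ S \ {s₁} := by rw [he]; simp
          exact ⟨x, y, hxy, fun h => hx.2 h.symm, fun h => hy.2 h.symm, hx.1, hy.1⟩
        refine hStg s₃ hs₃ (oneModel hPTN' G D S A Γ φ ρ hAS hD hM i j s₁ s₂ s₃ hs₁ hs₂ h12 h13
          h23 (fun k hk => hIi k hk) q6 ?_ ?_ ?_ hji ?_)
        · have := hfib s₁ hs₁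
          rwa [hfi s₁ hs₁] at this
        · have := hfib s₂ hs₂
          rwa [hfi s₂ hs₂] at this
        · obtain ⟨x, hx, y, hy, hxy⟩ := hT s₂ hs₂
          rw [q3] at hy
          obtain ⟨k, hk, hyk⟩ := Set.mem_iUnion₂.mp hy
          by_cases hkj : k = j
          · subst hkj
            exact ⟨x, hx, y, hyk, hxy⟩
          · exfalso
            have hki : k ≠ i := fun h => hJI k hk (h ▸ hi)
            exact hb s₂ hs₂ h12.symm ⟨x, hx, y, Set.mem_biUnion (hmemK k hki hkj) hyk, hxy⟩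
        · intro k hki hkj x hx y hy hxy
          by_contra hne'
          exact hb (ρ y) (hM.root i hi y hy) hne'
            ⟨y, rfl, x, Set.mem_biUnion (hmemK k hki hkj) hx, hxy.symm⟩
  · obtain ⟨Z, hZ, hZc, hZt⟩ := part1
    obtain ⟨a, b, hab, ha, hb⟩ : ∃ a b, a ≠ b ∧ a ∈ S ∧ b ∈ S := by
      obtain ⟨x, y, z, hxy, -, -, he⟩ := Set.ncard_eq_three.mp hS3
      exact ⟨x, y, hxy, by rw [he]; simp, by rw [he]; simp⟩
    refine ⟨a, ha, b, hb, hab, Z, ?_, hZc, hZt a ha, hZt b hb⟩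
    intro z hz
    refine ⟨hZ hz, fun hzr => hr ?_⟩
    have := hZ hz
    rw [q3] at this
    obtain ⟨k, hk, hzk⟩ := Set.mem_iUnion₂.mp this
    exact ⟨k, hk, z, hzk, hzr⟩

end Pool.Agent.Helper47.TS
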